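import Pool.Agent.K3h71.NP.Stm

set_option autoImplicit false
set_option linter.all false

/-!
# The points of the hypersurface for two curves
-/

namespace Pool.Agent.K3h42.NP

open Polynomial Pool.Agent.K3h71.NP

section

variable {A₀ F : Type} [CommRing A₀] [Field F]

/-- Homomorphisms from polynomials in one variable. -/
noncomputable def eqv (R : Type) [CommRing R] : (R[X] →+* F) ≃ (R →+* F) × F where
  toFun φ := (φ.comp C, φ X)
  invFun p := eval₂RingHom p.1 p.2
  left_inv φ := by
    refine Polynomial.ringHom_ext (fun r => ?_) ?_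
    · simp
    · simp
  right_inv p := by
    refine Prod.ext ?_ ?_
    · ext r; simp
    · simp

theorem ev2 {R : Type} [CommRing R] (φ : R[X][X] →+* F) (a : R[X][X]) :
    φ a = evalEval (φ (C X)) (φ X) (a.map (mapRingHom ((φ.comp C).comp C))) := by
  have : φ = ((evalEvalRingHom (φ (C X)) (φ X)).comp
      (mapRingHom (mapRingHom ((φ.comp C).comp C)))) := by
    refine Polynomial.ringHom_ext' ?_ ?_
    · refine Polynomial.ringHom_ext' ?_ ?_
      · ext r
        simp
      · simp
    · simp
  conv_lhs => rw [this]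
  rfl

/-- Homomorphisms from polynomials in three variables. -/
noncomputable def eqv3 : (A₀[X][X][X] →+* F) ≃ (A₀ →+* F) × (F × F × F) where
  toFun φ := (((φ.comp C).comp C).comp C, (φ (C (C X)), φ (C X), φ X))
  invFun p := eval₂RingHom (eval₂RingHom (eval₂RingHom p.1 p.2.1) p.2.2.1) p.2.2.2
  left_inv φ := by
    refine Polynomial.ringHom_ext' ?_ ?_
    · refine Polynomial.ringHom_ext' ?_ ?_
      · refine Polynomial.ringHom_ext' ?_ ?_
        · ext r
          simp
        · simp
      · simp
    · simp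
  right_inv p := by
    refine Prod.ext ?_ (Prod.ext ?_ (Prod.ext ?_ ?_))
    · ext r; simp
    · simp
    · simp
    · simp

theorem ev3 (φ : A₀[X][X][X] →+* F) (a a' : A₀[X][X]) :
    φ (VV a a') = evalEval (φ (C (C X))) (φ X)
        (a'.map (mapRingHom (((φ.comp C).comp C).comp C))) -
      evalEval (φ (C (C X))) (φ (C X)) (a.map (mapRingHom (((φ.comp C).comp C).comp C))) := by
  have hs : φ (VV a a') = φ (a'.map (C : A₀[X] →+* A₀[X][X])) - φ (C a) :=
    RingHom.map_sub φ (a'.map (C : A₀[X] →+* A₀[X][X])) (C a)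
  rw [hs]
  congr 1
  · have h := ev2 (φ.comp (mapRingHom (C : A₀[X] →+* A₀[X][X]))) a'
    have e : ((φ.comp (mapRingHom (C : A₀[X] →+* A₀[X][X]))).comp C).comp C =
        ((φ.comp C).comp C).comp C := by
      ext r
      simp
    have e1 : (φ.comp (mapRingHom (C : A₀[X] →+* A₀[X][X]))) (C X) = φ (C (C X)) := by simp
    have e2 : (φ.comp (mapRingHom (C : A₀[X] →+* A₀[X][X]))) X = φ X := by simp
    rw [e, e1, e2] at h
    exact h
  · exact ev2 (φ.comp C) a

end

theorem t_CntV : StmCntV := by
  classical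
  intro A₀ _ F _ _ _ a a'
  have h1 : Nat.card {φ : A₀[X][X][X] →+* F // φ (VV a a') = 0} =
      Nat.card {p : (A₀ →+* F) × (F × F × F) //
        evalEval p.2.1 p.2.2.1 (a.map (mapRingHom p.1)) =
          evalEval p.2.1 p.2.2.2 (a'.map (mapRingHom p.1))} := by
    refine Nat.card_congr (Equiv.subtypeEquiv eqv3 fun φ => ?_)
    rw [ev3, sub_eq_zero]
    exact eq_comm
  have h2 : Nat.card {p : (A₀ →+* F) × (F × F × F) //
        evalEval p.2.1 p.2.2.1 (a.map (mapRingHom p.1)) =
          evalEval p.2.1 p.2.2.2 (a'.map (mapRingHom p.1))} =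
      Nat.card (Σ ψ : A₀ →+* F, {z : F × F × F //
        evalEval z.1 z.2.1 (a.map (mapRingHom ψ)) =
        evalEval z.1 z.2.2 (a'.map (mapRingHom ψ))}) :=
    Nat.card_congr
      { toFun := fun p => ⟨p.1.1, ⟨p.1.2, p.2⟩⟩
        invFun := fun p => ⟨(p.1, p.2.1), p.2.2⟩
        left_inv := fun _ => rfl
        right_inv := fun _ => rfl }
  rw [h1, h2, Nat.card_sigma, Nat.cast_sum]

end Pool.Agent.K3h42.NP
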