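import Pool.Agent.K3h71.NP.Stm

set_option autoImplicit false
set_option linter.all false

/-!
# The function fields exist
-/

namespace Pool.Agent.K3h42.NP

open Polynomial Pool.Agent.K3h71.NP Pool.Agent.K3h82.CP

section

variable {K : Type} [Field K] {F : K[X][X]}

variable (L : Type) [Field L] [Algebra (AdjoinRoot F) L] [Algebra K L]
  [IsScalarTower K (AdjoinRoot F) L]

/-- the generators -/
noncomputable def gx (F : K[X][X]) (L : Type) [Field L] [Algebra (AdjoinRoot F) L] : L :=
  algebraMap (AdjoinRoot F) L (AdjoinRoot.of F X)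

noncomputable def gy (F : K[X][X]) (L : Type) [Field L] [Algebra (AdjoinRoot F) L] : L :=
  algebraMap (AdjoinRoot F) L (AdjoinRoot.root F)

theorem ev_eq (p : K[X][X]) :
    evalEval (gx F L) (gy F L) (p.map (mapRingHom (algebraMap K L))) =
      algebraMap (AdjoinRoot F) L (AdjoinRoot.mk F p) := by
  have : (evalEvalRingHom (gx F L) (gy F L)).comp (mapRingHom (mapRingHom (algebraMap K L))) =
      (algebraMap (AdjoinRoot F) L).comp (AdjoinRoot.mk F) := by
    refine Polynomial.ringHom_ext' ?_ ?_
    · refine Polynomial.ringHom_ext' ?_ ?_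
      · ext r
        have e : algebraMap K L r = algebraMap (AdjoinRoot F) L (AdjoinRoot.of F (C r)) := by
          rw [IsScalarTower.algebraMap_apply K (AdjoinRoot F) L, AdjoinRoot.algebraMap_eq']
          rfl
        simp [e]
      · simp [gx]
    · simp [gy]
  exact congrArg (fun f : K[X][X] →+* L => f p) this

theorem aeval_eq (p : K[X]) :
    aeval (gx F L) p = algebraMap (AdjoinRoot F) L (AdjoinRoot.of F p) := by
  have h := ev_eq (F := F) L (C p)
  rw [Polynomial.map_C, evalEval_C, AdjoinRoot.mk_C, coe_mapRingHom, eval_map] at h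
  exact h

theorem tr_x [FaithfulSMul (AdjoinRoot F) L] (hF : F.Monic) (h0 : 0 < F.natDegree) :
    Transcendental K (gx F L) := by
  rintro ⟨p, hp, h⟩
  rw [aeval_eq] at h
  have h1 : AdjoinRoot.of F p = 0 :=
    FaithfulSMul.algebraMap_injective (AdjoinRoot F) L (h.trans (map_zero _).symm)
  rw [← AdjoinRoot.mk_C, AdjoinRoot.mk_eq_zero] at h1
  obtain ⟨q, hq⟩ := h1
  have hq0 : q ≠ 0 := by
    rintro rfl
    rw [mul_zero, C_eq_zero] at hq
    exact hp hq
  have h2 := congrArg natDegree hq
  rw [natDegree_C, hF.natDegree_mul' hq0] at h2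
  omega

theorem mem_ad (p : K[X][X]) : algebraMap (AdjoinRoot F) L (AdjoinRoot.mk F p) ∈
    IntermediateField.adjoin K {gx F L, gy F L} := by
  have hx : gx F L ∈ IntermediateField.adjoin K {gx F L, gy F L} :=
    IntermediateField.subset_adjoin K _ (by simp)
  have hy : gy F L ∈ IntermediateField.adjoin K {gx F L, gy F L} :=
    IntermediateField.subset_adjoin K _ (by simp)
  induction p using Polynomial.induction_on' with
  | add p q hp hq =>
    rw [map_add, map_add]
    exact add_mem hp hq
  | monomial j q =>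
    rw [← C_mul_X_pow_eq_monomial, map_mul, map_pow, map_mul, map_pow, AdjoinRoot.mk_X,
      AdjoinRoot.mk_C]
    refine mul_mem ?_ (pow_mem hy j)
    rw [← aeval_eq, aeval_eq_sum_range]
    refine sum_mem fun i _ => ?_
    exact IntermediateField.smul_mem _ (pow_mem hx i)

theorem gen [IsFractionRing (AdjoinRoot F) L] :
    IntermediateField.adjoin K {gx F L, gy F L} = ⊤ := by
  rw [eq_top_iff]
  intro z _
  obtain ⟨a, b, _, rfl⟩ := IsFractionRing.div_surjective (A := AdjoinRoot F) z
  obtain ⟨p, rfl⟩ := AdjoinRoot.mk_surjective a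
  obtain ⟨q, rfl⟩ := AdjoinRoot.mk_surjective b
  exact div_mem (mem_ad L p) (mem_ad L q)

end

theorem t_ExF : StmExF := by
  intro K _ n m F hn hm hc hF
  haveI : IsDomain (AdjoinRoot F) := dom hn hm hc hF
  refine ⟨FractionRing (AdjoinRoot F), inferInstance, inferInstance,
    gx F (FractionRing (AdjoinRoot F)), gy F (FractionRing (AdjoinRoot F)), ?_, ?_, ?_⟩
  · exact tr_x _ hF.monic (by rw [hF.deg]; exact hn)
  · rw [ev_eq, AdjoinRoot.mk_self, map_zero]
  · exact gen _

end Pool.Agent.K3h42.NP
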