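import Pool.Agent.K3h71.NP.Stm

set_option autoImplicit false
set_option linter.all false

/-!
# The sum over the parameters of the net
-/

namespace Pool.Agent.K3h42.NP

open Polynomial Pool.Agent.K3h71.NP

section

variable {F : Type} [Field F] [Fintype F]

open Classical in
/-- `1` minus the number of the points over `x` with the value `t`. -/
noncomputable def fn (a : F[X][X]) (x t : F) : ℝ :=
  1 - ∑ y : F, if evalEval x y a = t then (1 : ℝ) else 0

open Classical in
theorem sum_fn (a : F[X][X]) (x : F) : ∑ t : F, fn a x t = 0 := by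
  unfold fn
  rw [Finset.sum_sub_distrib, Finset.sum_comm]
  have : ∀ y : F, ∑ t : F, (if evalEval x y a = t then (1 : ℝ) else 0) = 1 := fun y => by
    rw [Finset.sum_ite_eq]
    simp
  simp only [this]
  simp

open Classical in
theorem card_sub (a : F[X][X]) (w : F × F) :
    (Nat.card F : ℝ) - Nat.card {z : F × F // evalEval z.1 z.2 (net a w.1 w.2) = 0} =
      ∑ x : F, fn a x (-(w.1 + w.2 * x)) := by
  unfold fn
  rw [Finset.sum_sub_distrib]
  have h1 : (∑ x : F, (1 : ℝ)) = Nat.card F := by
    rw [Nat.card_eq_fintype_card, Finset.sum_const, Finset.card_univ, nsmul_eq_mul, mul_one]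
  have h2 : (Nat.card {z : F × F // evalEval z.1 z.2 (net a w.1 w.2) = 0} : ℝ) =
      ∑ x : F, ∑ y : F, if evalEval x y a = -(w.1 + w.2 * x) then (1 : ℝ) else 0 := by
    rw [Nat.subtype_card (Finset.univ.filter fun z : F × F =>
      evalEval z.1 z.2 (net a w.1 w.2) = 0) (fun z => by simp), Finset.card_filter,
      Nat.cast_sum, Fintype.sum_prod_type]
    refine Finset.sum_congr rfl fun x _ => Finset.sum_congr rfl fun y _ => ?_
    have e : evalEval x y (net a w.1 w.2) = evalEval x y a + (w.1 + w.2 * x) := by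
      unfold net evalEval
      simp
    have : (evalEval (x, y).1 (x, y).2 (net a w.1 w.2) = 0) ↔
        (evalEval x y a = -(w.1 + w.2 * x)) := by
      show (evalEval x y (net a w.1 w.2) = 0) ↔ _
      rw [e, eq_neg_iff_add_eq_zero]
    by_cases h : evalEval x y a = -(w.1 + w.2 * x)
    · rw [if_pos h, if_pos (this.2 h), Nat.cast_one]
    · rw [if_neg h, if_neg (fun h' => h (this.1 h')), Nat.cast_zero]
  rw [h1, h2]

/-- the off-diagonal terms vanish -/
theorem off (f g : F → ℝ) (hg : ∑ t : F, g t = 0) {x x' : F} (h : x ≠ x') :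
    ∑ w : F × F, f (-(w.1 + w.2 * x)) * g (-(w.1 + w.2 * x')) = 0 := by
  let T : F × F → F × F := fun w => (-(w.1 + w.2 * x), -(w.1 + w.2 * x'))
  have hT : Function.Bijective T := by
    rw [Fintype.bijective_iff_injective_and_card]
    refine ⟨fun w v e => ?_, rfl⟩
    have e1 : -(w.1 + w.2 * x) = -(v.1 + v.2 * x) := congrArg Prod.fst e
    have e2 : -(w.1 + w.2 * x') = -(v.1 + v.2 * x') := congrArg Prod.snd e
    have e3 : (w.2 - v.2) * (x - x') = 0 := by linear_combination e2 - e1
    have e4 : w.2 = v.2 := by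
      rcases mul_eq_zero.1 e3 with h' | h'
      · exact sub_eq_zero.1 h'
      · exact absurd (sub_eq_zero.1 h') h
    have e5 : w.1 = v.1 := by
      rw [e4] at e1
      linear_combination -e1
    exact Prod.ext e5 e4
  have := Function.Bijective.sum_comp hT (fun p : F × F => f p.1 * g p.2)
  show ∑ w : F × F, (fun p : F × F => f p.1 * g p.2) (T w) = 0
  rw [this, Fintype.sum_prod_type]
  simp only
  refine Finset.sum_eq_zero fun s _ => ?_
  rw [← Finset.mul_sum, hg, mul_zero]

/-- the diagonal terms -/
theorem diag (f : F → ℝ) (x : F) :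
    ∑ w : F × F, f (-(w.1 + w.2 * x)) = (Nat.card F : ℝ) * ∑ t : F, f t := by
  rw [Fintype.sum_prod_type_right]
  simp only
  have : ∀ v : F, ∑ u : F, f (-(u + v * x)) = ∑ t : F, f t := fun v => by
    have hb : Function.Bijective fun u : F => -(u + v * x) := by
      rw [Fintype.bijective_iff_injective_and_card]
      refine ⟨fun u u' e => ?_, rfl⟩
      have e' : -(u + v * x) = -(u' + v * x) := e
      linear_combination -e'
    exact Function.Bijective.sum_comp hb f
  simp only [this]
  rw [Finset.sum_const, Finset.card_univ, nsmul_eq_mul, Nat.card_eq_fintype_card]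

open Classical in
theorem prod_fn (a a' : F[X][X]) (x : F) :
    ∑ t : F, fn a x t * fn a' x t =
      (∑ y : F, ∑ z : F, if evalEval x y a = evalEval x z a' then (1 : ℝ) else 0) -
        Nat.card F := by
  have h1 : ∑ t : F, fn a x t * fn a' x t = ∑ t : F, fn a x t -
      ∑ t : F, fn a x t * ∑ z : F, (if evalEval x z a' = t then (1 : ℝ) else 0) := by
    rw [← Finset.sum_sub_distrib]
    refine Finset.sum_congr rfl fun t _ => ?_
    have : fn a' x t = 1 - ∑ z : F, (if evalEval x z a' = t then (1 : ℝ) else 0) := rfl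
    rw [this]
    ring
  have h2 : ∑ t : F, fn a x t * ∑ z : F, (if evalEval x z a' = t then (1 : ℝ) else 0) =
      ∑ z : F, fn a x (evalEval x z a') := by
    simp only [Finset.mul_sum]
    rw [Finset.sum_comm]
    refine Finset.sum_congr rfl fun z _ => ?_
    simp
  rw [h1, sum_fn, h2]
  have h3 : ∑ z : F, fn a x (evalEval x z a') = (Nat.card F : ℝ) -
      ∑ z : F, ∑ y : F, if evalEval x y a = evalEval x z a' then (1 : ℝ) else 0 := by
    unfold fn
    rw [Finset.sum_sub_distrib, Finset.sum_const, Finset.card_univ, nsmul_eq_mul, mul_one,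
      Nat.card_eq_fintype_card]
  rw [h3, Finset.sum_comm]
  ring

open Classical in
theorem card_vv (a a' : F[X][X]) :
    (Nat.card {z : F × F × F // evalEval z.1 z.2.1 a = evalEval z.1 z.2.2 a'} : ℝ) =
      ∑ x : F, ∑ y : F, ∑ z : F,
        if evalEval x y a = evalEval x z a' then (1 : ℝ) else 0 := by
  rw [Nat.subtype_card (Finset.univ.filter fun z : F × F × F =>
      evalEval z.1 z.2.1 a = evalEval z.1 z.2.2 a') (fun z => by simp), Finset.card_filter,
      Nat.cast_sum, Fintype.sum_prod_type]
  refine Finset.sum_congr rfl fun x _ => ?_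
  rw [Fintype.sum_prod_type]
  refine Finset.sum_congr rfl fun y _ => Finset.sum_congr rfl fun z _ => ?_
  by_cases h : evalEval x y a = evalEval x z a'
  · rw [if_pos h, if_pos h, Nat.cast_one]
  · rw [if_neg h, if_neg h, Nat.cast_zero]

end

theorem t_SumW : StmSumW := by
  classical
  intro F _ _ a a'
  have h1 : ∀ w : F × F,
      ((Nat.card F : ℝ) - Nat.card {z : F × F // evalEval z.1 z.2 (net a w.1 w.2) = 0}) *
      ((Nat.card F : ℝ) - Nat.card {z : F × F // evalEval z.1 z.2 (net a' w.1 w.2) = 0}) =
      ∑ x : F, ∑ x' : F, fn a x (-(w.1 + w.2 * x)) * fn a' x' (-(w.1 + w.2 * x')) := fun w => by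
    rw [card_sub, card_sub, Finset.sum_mul_sum]
  rw [Finset.sum_congr rfl fun w _ => h1 w, Finset.sum_comm]
  have h2 : ∀ x : F, ∑ w : F × F, ∑ x' : F,
      fn a x (-(w.1 + w.2 * x)) * fn a' x' (-(w.1 + w.2 * x')) =
      (Nat.card F : ℝ) * ((∑ y : F, ∑ z : F,
        if evalEval x y a = evalEval x z a' then (1 : ℝ) else 0) - Nat.card F) := fun x => by
    rw [Finset.sum_comm, Finset.sum_eq_single x]
    · rw [← prod_fn, ← diag (fun t => fn a x t * fn a' x t) x]
    · intro x' _ hx
      exact off (fn a x) (fn a' x') (sum_fn a' x') (Ne.symm hx)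
    · intro h
      exact absurd (Finset.mem_univ x) h
  rw [Finset.sum_congr rfl fun x _ => h2 x, ← Finset.mul_sum, Finset.sum_sub_distrib,
    ← card_vv, Finset.sum_const, Finset.card_univ, nsmul_eq_mul, ← Nat.card_eq_fintype_card]
  ring

end Pool.Agent.K3h42.NP
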